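import Mathlib

set_option autoImplicit false

namespace Pool.Agent.H.MP_2ee812_an
open MeasureTheory Finset Real Filter Topology ProbabilityTheory

noncomputable def S {n : ℕ} (a : Fin n → ℝ) : ℝ :=
  ∑ J ∈ (univ : Finset (Fin n)).powerset, (-1) ^ (J.card + 1) * (∑ j ∈ J, a j)⁻¹

noncomputable def P {n : ℕ} (a : Fin n → ℝ) (t : ℝ) : ℝ := 1 - ∏ i, (1 - exp (-(a i * t)))

lemma rep {n : ℕ} {a : Fin n → ℝ} (ha : ∀ i, 0 < a i) :
    IntegrableOn (P a) (Set.Ioi 0) ∧ ∫ t in Set.Ioi 0, P a t = S a := by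
  let h : Finset (Fin n) → ℝ → ℝ := fun J t => if J = ∅ then 0 else exp (-(∑ j ∈ J, a j) * t)
  have e : P a = fun t => ∑ J ∈ (univ : Finset (Fin n)).powerset, (-1) ^ (J.card + 1) * h J t := by
    funext t
    simp only [P, sub_eq_add_neg (1 : ℝ) (exp _)]
    rw [prod_one_add, sub_eq_iff_eq_add, ← sum_add_distrib, sum_eq_single ∅]
    · simp [h]
    · intro J _ hJ
      rw [prod_neg, ← exp_sum]
      simp only [h, hJ, if_false, sum_neg_distrib, ← sum_mul, neg_mul]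
      ring
    · simp
  have pos : ∀ J : Finset (Fin n), J ≠ ∅ → -(∑ j ∈ J, a j) < 0 := fun J hJ =>
    neg_neg_of_pos (sum_pos (fun i _ => ha i) (nonempty_iff_ne_empty.2 hJ))
  have i1 : ∀ J, IntegrableOn (h J) (Set.Ioi 0) := fun J => by
    by_cases hJ : J = ∅
    · simp only [h, hJ, if_true]; exact integrableOn_zero
    · simp only [h, hJ, if_false]; exact integrableOn_exp_mul_Ioi (pos J hJ) 0
  have i2 : ∀ J, ∫ t in Set.Ioi 0, h J t = (∑ j ∈ J, a j)⁻¹ := fun J => by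
    by_cases hJ : J = ∅
    · simp [h, hJ]
    · simp only [h, hJ, if_false]
      rw [integral_exp_mul_Ioi (pos J hJ)]
      simp [neg_div_neg_eq]
  rw [e]
  refine ⟨integrable_finsetSum _ fun J _ => (i1 J).const_mul _, ?_⟩
  rw [integral_finsetSum _ fun J _ => (i1 J).const_mul _]
  exact sum_congr rfl fun J _ => by rw [integral_const_mul, i2]

lemma q01 {x t : ℝ} (hx : 0 < x) (ht : 0 < t) : 0 ≤ 1 - exp (-(x * t)) ∧ 1 - exp (-(x * t)) ≤ 1 :=
  ⟨sub_nonneg.2 (exp_le_one_iff.2 (neg_nonpos.2 (by positivity))), by linarith [exp_pos (-(x * t))]⟩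

lemma P0 {n : ℕ} {a : Fin n → ℝ} (ha : ∀ i, 0 < a i) {t : ℝ} (ht : 0 < t) : 0 ≤ P a t :=
  sub_nonneg.2 (prod_le_one (fun i _ => (q01 (ha i) ht).1) fun i _ => (q01 (ha i) ht).2)

lemma S0 {n : ℕ} {a : Fin n → ℝ} (ha : ∀ i, 0 < a i) : 0 ≤ S a := by
  rw [← (rep ha).2]
  exact setIntegral_nonneg measurableSet_Ioi fun t ht => P0 ha ht

instance : IsProbabilityMeasure (expMeasure 1) := isProbabilityMeasure_expMeasure one_pos

lemma icc {s : ℝ} (hs : 0 < s) : expMeasure 1 (Set.Icc (-s) s) = ENNReal.ofReal (1 - exp (-s)) := by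
  have h1 : expMeasure 1 (Set.Iic s) = ENNReal.ofReal (1 - exp (-s)) := by
    rw [← ofReal_cdf, cdf_expMeasure_eq one_pos, if_pos hs.le, one_mul]
  have h2 : expMeasure 1 (Set.Iic (-s)) = 0 := by
    rw [← ofReal_cdf, cdf_expMeasure_eq one_pos, if_neg (by linarith), ENNReal.ofReal_zero]
  rw [← h1]
  refine le_antisymm (measure_mono Set.Icc_subset_Iic_self) ?_
  calc expMeasure 1 (Set.Iic s) ≤ expMeasure 1 (Set.Icc (-s) s ∪ Set.Iic (-s)) := measure_mono fun x hx => by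
        rcases le_total x (-s) with h | h
        · exact Or.inr h
        · exact Or.inl ⟨h, hx⟩
    _ ≤ _ := measure_union_le _ _
    _ = _ := by rw [h2, add_zero]

noncomputable def F {n : ℕ} (b : Fin n → ℝ) : ℝ := S fun i => (b i)⁻¹

lemma lay {n : ℕ} {b : Fin n → ℝ} (hb : ∀ i, 0 < b i) :
    ∫⁻ x, ENNReal.ofReal ‖fun i => b i * x i‖ ∂(Measure.pi fun _ : Fin n => expMeasure 1) =
      ENNReal.ofReal (F b) := by
  have ha : ∀ i, 0 < (b i)⁻¹ := fun i => inv_pos.2 (hb i)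
  have c : Continuous fun x : Fin n → ℝ => ‖fun i => b i * x i‖ := by fun_prop
  rw [lintegral_eq_lintegral_meas_lt _ (Eventually.of_forall fun x => norm_nonneg _) c.aemeasurable, F,
    ← (rep ha).2, ofReal_integral_eq_lintegral_ofReal (rep ha).1
      ((ae_restrict_iff' measurableSet_Ioi).2 (Eventually.of_forall fun t ht => P0 ha ht))]
  refine setLIntegral_congr_fun measurableSet_Ioi fun t ht => ?_
  have ht : 0 < t := ht
  have e : {x : Fin n → ℝ | t < ‖fun i => b i * x i‖} =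
      (Set.univ.pi fun i => Set.Icc (-((b i)⁻¹ * t)) ((b i)⁻¹ * t))ᶜ := by
    ext x
    simp only [Set.mem_setOf_eq, Set.mem_compl_iff, ← not_le, pi_norm_le_iff_of_nonneg ht.le, Set.mem_pi,
      Set.mem_univ, true_imp_iff, Set.mem_Icc, ← abs_le]
    refine not_congr (forall_congr' fun i => ?_)
    rw [Real.norm_eq_abs, abs_mul, abs_of_pos (hb i), le_inv_mul_iff₀ (hb i)]
  rw [e, prob_compl_eq_one_sub (MeasurableSet.univ_pi fun i => measurableSet_Icc), Measure.pi_pi, P,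
    ENNReal.ofReal_sub _ (prod_nonneg fun i _ => (q01 (ha i) ht).1), ENNReal.ofReal_one,
    ENNReal.ofReal_prod_of_nonneg fun i _ => (q01 (ha i) ht).1]
  congr 1
  exact prod_congr rfl fun i _ => icc (mul_pos (ha i) ht)

lemma sub {n : ℕ} {b c : Fin n → ℝ} (hb : ∀ i, 0 < b i) (hc : ∀ i, 0 < c i) {e : ℝ} (he : 0 < e) :
    F (fun i => b i + e * c i) ≤ F b + e * F c := by
  have h0 : ∀ b : Fin n → ℝ, (∀ i, 0 < b i) → 0 ≤ F b := fun b hb => S0 fun i => inv_pos.2 (hb i)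
  have c1 : Continuous fun x : Fin n → ℝ => ‖fun i => b i * x i‖ := by fun_prop
  have c2 : Continuous fun x : Fin n → ℝ => ‖fun i => c i * x i‖ := by fun_prop
  rw [← ENNReal.ofReal_le_ofReal_iff (add_nonneg (h0 b hb) (mul_nonneg he.le (h0 c hc))),
    ENNReal.ofReal_add (h0 b hb) (mul_nonneg he.le (h0 c hc)), ENNReal.ofReal_mul he.le,
    ← lay fun i => add_pos (hb i) (mul_pos he (hc i)), ← lay hb, ← lay hc,
    ← lintegral_const_mul _ c2.measurable.ennreal_ofReal, ← lintegral_add_left c1.measurable.ennreal_ofReal]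
  refine lintegral_mono fun x => ?_
  rw [← ENNReal.ofReal_mul he.le, ← ENNReal.ofReal_add (norm_nonneg _) (by positivity)]
  refine ENNReal.ofReal_le_ofReal ?_
  have : (fun i => (b i + e * c i) * x i) = (fun i => b i * x i) + e • fun i => c i * x i := by
    funext i; simp; ring
  rw [this]
  refine (norm_add_le _ _).trans ?_
  rw [norm_smul, Real.norm_of_nonneg he.le]

lemma tan0 {n : ℕ} {a c : Fin n → ℝ} (ha : ∀ i, 0 < a i) (hc : ∀ i, 0 < c i) :
    ∑ J ∈ (univ : Finset (Fin n)).powerset,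
      (-1) ^ (J.card + 1) * ((∑ j ∈ J, c j * a j ^ 2) * ((∑ j ∈ J, a j) ^ 2)⁻¹) ≤ F c := by
  have d : HasDerivAt (fun e : ℝ => F (fun i => (a i)⁻¹ + e * c i)) (∑ J ∈ (univ : Finset (Fin n)).powerset,
      (-1) ^ (J.card + 1) * ((∑ j ∈ J, c j * a j ^ 2) * ((∑ j ∈ J, a j) ^ 2)⁻¹)) 0 := by
    unfold F S
    refine HasDerivAt.fun_sum fun J _ => HasDerivAt.const_mul _ ?_
    by_cases hJ : J = ∅
    · simpa [hJ] using hasDerivAt_const (0 : ℝ) (0 : ℝ)
    have h1 : HasDerivAt (fun e : ℝ => ∑ j ∈ J, ((a j)⁻¹ + e * c j)⁻¹) (∑ j ∈ J, -(c j * a j ^ 2)) 0 :=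
      HasDerivAt.fun_sum fun j _ => by
        have := (((hasDerivAt_id' (0 : ℝ)).mul_const (c j)).const_add (a j)⁻¹).fun_inv
          (by simpa using (ha j).ne')
        refine this.congr_deriv ?_
        have := (ha j).ne'
        field_simp
        ring
    have h2 : 0 < ∑ j ∈ J, a j := sum_pos (fun i _ => ha i) (nonempty_iff_ne_empty.2 hJ)
    refine (h1.fun_inv (by simpa using h2.ne')).congr_deriv ?_
    simp [div_eq_mul_inv]
  refine le_of_tendsto d.tendsto_slope_zero_right ?_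
  filter_upwards [self_mem_nhdsWithin] with e he
  have he : 0 < e := he
  have := sub (fun i => inv_pos.2 (ha i)) hc he
  simp only [zero_add, zero_mul, add_zero, smul_eq_mul]
  rw [inv_mul_le_iff₀ he]
  linarith

def R (φ : ℝ → ℝ) : List ℝ → ℝ → ℝ
  | [], s => φ s
  | x :: l, s => R φ l s - R φ l (s + x)

lemma R_eq {ι : Type} [DecidableEq ι] (φ : ℝ → ℝ) (a : ι → ℝ) (l : List ι) (hl : l.Nodup) (s : ℝ) :
    ∑ J ∈ l.toFinset.powerset, (-1) ^ J.card * φ (s + ∑ j ∈ J, a j) = R φ (l.map a) s := by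
  induction l generalizing s with
  | nil => simp [R]
  | cons x l ih =>
    obtain ⟨h1, h2⟩ := List.nodup_cons.1 hl
    have hx : x ∉ l.toFinset := by simpa using h1
    rw [List.toFinset_cons, sum_powerset_insert hx, List.map_cons, R, ← ih h2, ← ih h2, sub_eq_add_neg,
      ← sum_neg_distrib]
    congr 1
    refine sum_congr rfl fun J hJ => ?_
    have : x ∉ J := fun h => hx (mem_powerset.1 hJ h)
    rw [card_insert_of_notMem this, sum_insert this, add_assoc]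
    ring

noncomputable def cf {n : ℕ} (a : Fin n → ℝ) (i : Fin n) : ℝ :=
  a i ^ 2 * ∑ J ∈ (univ.erase i).powerset, (-1) ^ J.card * ((a i + ∑ j ∈ J, a j) ^ 2)⁻¹

lemma tang {n : ℕ} {a c : Fin n → ℝ} (ha : ∀ i, 0 < a i) (hc : ∀ i, 0 < c i) :
    ∑ i, cf a i * c i ≤ F c := by
  refine le_of_eq_of_le ?_ (tan0 ha hc)
  have e : ∀ J : Finset (Fin n), (-1 : ℝ) ^ (J.card + 1) * ((∑ j ∈ J, c j * a j ^ 2) * ((∑ j ∈ J, a j) ^ 2)⁻¹) =
      ∑ i, if i ∈ J then (-1 : ℝ) ^ (J.card + 1) * (c i * a i ^ 2 * ((∑ j ∈ J, a j) ^ 2)⁻¹) else 0 := fun J => by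
    rw [← sum_filter, filter_mem_eq_inter, univ_inter, sum_mul, mul_sum]
  simp only [e]
  rw [sum_comm]
  refine sum_congr rfl fun i _ => ?_
  conv_rhs => rw [← insert_erase (mem_univ i), sum_powerset_insert (notMem_erase i _)]
  rw [sum_eq_zero, zero_add, cf, mul_sum, sum_mul]
  · refine sum_congr rfl fun J hJ => ?_
    have : i ∉ J := fun h => notMem_erase i _ (mem_powerset.1 hJ h)
    rw [if_pos (mem_insert_self _ _), card_insert_of_notMem this, sum_insert this]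
    ring
  · intro J hJ
    exact if_neg fun h => notMem_erase i _ (mem_powerset.1 hJ h)

lemma S6 (a : Fin 6 → ℝ) : S a = -R (fun s => s⁻¹) [a 0, a 1, a 2, a 3, a 4, a 5] 0 := by
  have := R_eq (fun s => s⁻¹) a [0, 1, 2, 3, 4, 5] (by decide) 0
  have e : ([0, 1, 2, 3, 4, 5] : List (Fin 6)).toFinset = univ := by decide
  rw [e] at this
  simp only [List.map_cons, List.map_nil] at this
  rw [← this, S, ← sum_neg_distrib]
  exact sum_congr rfl fun J _ => by rw [zero_add]; ring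

lemma five {x y : ℝ} (hx : 0 < x) (hy : 5 * x ≤ y) :
    x⁻¹ + 5 / 2 * (x * y⁻¹ ^ 2) ≤ S ![x, y, y, y, y, y] := by
  have y0 : 0 < y := by linarith
  have e : S ![x, y, y, y, y, y] = x⁻¹ + (5 * x / ((x + y) * (x + 2 * y)) + (10 * x / (3 * y * (x + 3 * y)) -
      5 * x / (4 * y * (x + 4 * y))) + x / (5 * y * (x + 5 * y))) := by
    rw [S6]
    simp only [R, Matrix.cons_val, zero_add, inv_zero]
    have e2 : ∀ u : ℝ, u + y + y = u + 2 * y := fun u => by ring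
    have e3 : ∀ u : ℝ, u + 2 * y + y = u + 3 * y := fun u => by ring
    have e4 : ∀ u : ℝ, u + 3 * y + y = u + 4 * y := fun u => by ring
    have e5 : ∀ u : ℝ, u + 4 * y + y = u + 5 * y := fun u => by ring
    simp only [e2, e3, e4, e5]
    field_simp
    ring
  rw [e]
  have h1 : 5 * x / (66 / 25 * y ^ 2) ≤ 5 * x / ((x + y) * (x + 2 * y)) :=
    div_le_div_of_nonneg_left (by positivity) (by positivity) (by nlinarith)
  have h2 : 10 * x / (48 / 5 * y ^ 2) ≤ 10 * x / (3 * y * (x + 3 * y)) :=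
    div_le_div_of_nonneg_left (by positivity) (by positivity) (by nlinarith)
  have h3 : 5 * x / (4 * y * (x + 4 * y)) ≤ 5 * x / (16 * y ^ 2) :=
    div_le_div_of_nonneg_left (by positivity) (by positivity) (by nlinarith)
  have h4 : 0 ≤ x / (5 * y * (x + 5 * y)) := by positivity
  have e1 : 5 * x / (66 / 25 * y ^ 2) = 125 / 66 * (x * y⁻¹ ^ 2) := by field_simp; ring
  have e2 : 10 * x / (48 / 5 * y ^ 2) = 25 / 24 * (x * y⁻¹ ^ 2) := by field_simp; ring
  have e3 : 5 * x / (16 * y ^ 2) = 5 / 16 * (x * y⁻¹ ^ 2) := by field_simp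
  have : 0 ≤ x * y⁻¹ ^ 2 := by positivity
  linarith

lemma near {a : Fin 6 → ℝ} (ha : ∀ i, 0 < a i) (h : ∀ j : Fin 5, 5 * a 0 ≤ a j.succ) :
    √(∑ i, (a i)⁻¹ ^ 2) ≤ S a := by
  let v : Fin 5 → Fin 6 → ℝ := fun j => ![a 0, a j.succ, a j.succ, a j.succ, a j.succ, a j.succ]
  have hv : ∀ j i, 0 < v j i := fun j i => by fin_cases i <;> simp [v, ha]
  have h1 : ∑ j, 1 / 5 * S (v j) ≤ S a := by
    simp only [fun j => ((rep (hv j)).2).symm, ← integral_const_mul]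
    rw [← (rep ha).2, ← integral_finsetSum _ fun j _ => (rep (hv j)).1.const_mul _]
    refine setIntegral_mono_on (integrable_finsetSum _ fun j _ => (rep (hv j)).1.const_mul _) (rep ha).1
      measurableSet_Ioi fun t ht => ?_
    have q := fun i => q01 (ha i) ht
    have g := geom_mean_le_arith_mean_weighted univ (fun _ : Fin 5 => (1 / 5 : ℝ))
      (fun j => (1 - exp (-(a j.succ * t))) ^ 5) (fun _ _ => by norm_num) (by simp)
      fun j _ => pow_nonneg (q _).1 _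
    have e : ∀ j : Fin 5, ((1 - exp (-(a j.succ * t))) ^ 5) ^ (1 / 5 : ℝ) = 1 - exp (-(a j.succ * t)) := fun j => by
      have := Real.pow_rpow_inv_natCast (q j.succ).1 (n := 5) (by norm_num)
      rw [one_div]; exact_mod_cast this
    simp only [e] at g
    have e2 : ∀ j, P (v j) t = 1 - (1 - exp (-(a 0 * t))) * (1 - exp (-(a j.succ * t))) ^ 5 := fun j => by
      simp only [P, v, Fin.prod_univ_succ, Matrix.cons_val_zero, Matrix.cons_val_succ, Fin.prod_univ_zero]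
      ring
    simp only [e2]
    rw [P, Fin.prod_univ_succ]
    have g2 := mul_le_mul_of_nonneg_left g (q 0).1
    simp only [Fin.sum_univ_five] at g2 ⊢
    linarith
  have h2 : ∑ j : Fin 5, 1 / 5 * ((a 0)⁻¹ + 5 / 2 * (a 0 * (a j.succ)⁻¹ ^ 2)) ≤ ∑ j, 1 / 5 * S (v j) :=
    sum_le_sum fun j _ => mul_le_mul_of_nonneg_left (five (ha 0) (h j)) (by norm_num)
  refine le_trans ?_ (h2.trans h1)
  have e : ∑ j : Fin 5, 1 / 5 * ((a 0)⁻¹ + 5 / 2 * (a 0 * (a j.succ)⁻¹ ^ 2)) =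
      (a 0)⁻¹ + a 0 / 2 * ∑ j : Fin 5, (a j.succ)⁻¹ ^ 2 := by
    simp only [Fin.sum_univ_five]; ring
  rw [e, Fin.sum_univ_succ]
  have r0 : 0 ≤ ∑ j : Fin 5, (a j.succ)⁻¹ ^ 2 := by positivity
  generalize ∑ j : Fin 5, (a j.succ)⁻¹ ^ 2 = r at *
  have a0 := ha 0
  refine sqrt_le_iff.2 ⟨by positivity, ?_⟩
  have : (a 0)⁻¹ * a 0 = 1 := inv_mul_cancel₀ a0.ne'
  nlinarith [sq_nonneg (a 0 / 2 * r)]

lemma down {n : ℕ} (h : ∀ a : Fin (n + 1) → ℝ, (∀ i, 0 < a i) → √(∑ i, (a i)⁻¹ ^ 2) ≤ S a)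
    (a : Fin n → ℝ) (ha : ∀ i, 0 < a i) : √(∑ i, (a i)⁻¹ ^ 2) ≤ S a := by
  refine le_of_forall_pos_le_add fun e he => ?_
  have hc : ∀ i, 0 < (Fin.cons e⁻¹ a : Fin (n + 1) → ℝ) i := fun i => by
    refine Fin.cases ?_ (fun j => ?_) i
    · simpa using he
    · simpa using ha j
  have h1 := h _ hc
  rw [Fin.sum_univ_succ] at h1
  simp only [Fin.cons_zero, Fin.cons_succ] at h1
  refine (sqrt_le_sqrt (le_add_of_nonneg_left (by positivity))).trans (h1.trans ?_)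
  have n1 : -e⁻¹ < 0 := neg_neg_of_pos (inv_pos.2 he)
  have i1 := integrableOn_exp_mul_Ioi n1 0
  have i2 : ∫ t in Set.Ioi 0, exp (-e⁻¹ * t) = e := by rw [integral_exp_mul_Ioi n1]; simp [neg_div_neg_eq]
  rw [← (rep hc).2, ← (rep ha).2, ← i2, ← integral_add (rep ha).1 i1]
  refine setIntegral_mono_on (by rw [i2]; exact (rep hc).1) ((rep ha).1.add i1) measurableSet_Ioi fun t ht => ?_
  rw [i2, P, P, Fin.prod_univ_succ]
  simp only [Fin.cons_zero, Fin.cons_succ, neg_mul]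
  have p1 : ∏ i, (1 - exp (-(a i * t))) ≤ 1 :=
    prod_le_one (fun i _ => (q01 (ha i) ht).1) fun i _ => (q01 (ha i) ht).2
  nlinarith [exp_pos (-(e⁻¹ * t))]

lemma perm {n : ℕ} {a : Fin n → ℝ} (ha : ∀ i, 0 < a i) (σ : Equiv.Perm (Fin n)) : S (a ∘ σ) = S a := by
  rw [← (rep ha).2, ← (rep (a := a ∘ σ) fun i => ha _).2]
  congr 1
  funext t
  rw [P, P, ← Equiv.prod_comp σ fun i => 1 - exp (-(a i * t))]
  rfl

lemma seven : S (fun _ : Fin 7 => (1 : ℝ)) < √(∑ _i : Fin 7, (1 : ℝ)⁻¹ ^ 2) := by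
  have := R_eq (fun s => s⁻¹) (fun _ : Fin 7 => (1 : ℝ)) [0, 1, 2, 3, 4, 5, 6] (by decide) 0
  have e : ([0, 1, 2, 3, 4, 5, 6] : List (Fin 7)).toFinset = univ := by decide
  rw [e] at this
  have e2 : S (fun _ : Fin 7 => (1 : ℝ)) = -R (fun s => s⁻¹) [1, 1, 1, 1, 1, 1, 1] 0 := by
    simp only [List.map_cons, List.map_nil] at this
    rw [← this, S, ← sum_neg_distrib]
    exact sum_congr rfl fun J _ => by rw [zero_add]; ring
  rw [e2]
  refine lt_sqrt_of_sq_lt ?_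
  simp only [R]
  norm_num

end Pool.Agent.H.MP_2ee812_an
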