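import Pool.Agent.H.MP_2ee812_an.A

set_option autoImplicit false

namespace Pool.Agent.H.MP_2ee812_an
open Finset Real

structure Ry where
  (a b c d e f : ℕ)

def Ry.v (x : Ry) : Fin 6 → ℝ := ![x.a, x.b, x.c, x.d, x.e, x.f]

inductive Tr
  | z : Tr
  | l (a b c d e f : ℕ) : Tr
  | n (i j p q : ℕ) (L M : Tr) : Tr

def K : ℕ := 1208925819614629174706176

def g (l : List ℕ) : Bool → ℕ → ℕ :=
  List.rec (fun t s => cond t (K / (s * s)) 0) (fun x _ r t s => r t s + r (!t) (s + x)) l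

def fn (x : ℕ) (k : ℕ → Bool) : Bool := Nat.casesOn x (k 0) fun y => k y.succ

lemma fn_eq (x : ℕ) (k : ℕ → Bool) : fn x k = k x := by cases x <;> rfl

def co (s : ℕ) (l : List ℕ) : ℕ := s * s * (g l true s - (g l false s + 32))

def good (c0 c1 c2 c3 c4 c5 : ℕ) (x : Ry) : Bool :=
  Nat.ble (K * K * (x.a * x.a + x.b * x.b + x.c * x.c + x.d * x.d + x.e * x.e + x.f * x.f))
    ((c0 * x.a + c1 * x.b + c2 * x.c + c3 * x.d + c4 * x.e + c5 * x.f) *
      (c0 * x.a + c1 * x.b + c2 * x.c + c3 * x.d + c4 * x.e + c5 * x.f))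

def cok (s : ℕ) (l : List ℕ) (k : ℕ → Bool) : Bool :=
  fn (g l true s) fun u => fn (g l false s + 32) fun w => Nat.ble 1 s && (Nat.ble w u && fn (s * s * (u - w)) k)

def leaf (a b c d e f : ℕ) (V : List Ry) : Bool :=
  cok a [b, c, d, e, f] fun c0 => cok b [a, c, d, e, f] fun c1 => cok c [a, b, d, e, f] fun c2 =>
  cok d [a, b, c, e, f] fun c3 => cok e [a, b, c, d, f] fun c4 => cok f [a, b, c, d, e] fun c5 =>
    V.all (good c0 c1 c2 c3 c4 c5)

def vert (x : Ry) : Bool :=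
  Nat.ble (5 * x.b) x.a && Nat.ble (5 * x.c) x.a && Nat.ble (5 * x.d) x.a && Nat.ble (5 * x.e) x.a &&
    Nat.ble (5 * x.f) x.a

def mv : ℕ → List Ry → List Ry
  | 0, V => V
  | _ + 1, [] => []
  | k + 1, x :: V => match mv k V with
    | [] => [x]
    | y :: r => y :: x :: r

def cmb (p q : ℕ) (x y : Ry) (k : Ry → Bool) : Bool :=
  fn (p * x.a + q * y.a) fun a => fn (p * x.b + q * y.b) fun b => fn (p * x.c + q * y.c) fun c =>
  fn (p * x.d + q * y.d) fun d => fn (p * x.e + q * y.e) fun e => fn (p * x.f + q * y.f) fun f =>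
    k ⟨a, b, c, d, e, f⟩

def chk : Tr → List Ry → Bool
  | .z, V => V.all vert
  | .l a b c d e f, V => leaf a b c d e f V
  | .n i j p q L M, V => match mv i (mv j V) with
    | x :: y :: r => cmb (p + 1) (q + 1) x y fun w => chk L (w :: y :: r) && chk M (x :: w :: r)
    | _ => false

def Cone : List Ry → (Fin 6 → ℝ) → Prop
  | [], b => b = 0
  | x :: V, b => ∃ t : ℝ, 0 ≤ t ∧ Cone V (b - t • x.v)

lemma cone_mv (k : ℕ) (V : List Ry) (b : Fin 6 → ℝ) (h : Cone V b) : Cone (mv k V) b := by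
  induction k generalizing V b with
  | zero => exact h
  | succ k ih =>
    cases V with
    | nil => exact h
    | cons x V =>
      obtain ⟨t, t0, h⟩ := h
      have := ih V _ h
      rw [mv]
      cases hm : mv k V with
      | nil => rw [hm] at this; exact ⟨t, t0, this⟩
      | cons y r =>
        rw [hm] at this
        obtain ⟨s, s0, h2⟩ := this
        exact ⟨s, s0, t, t0, by rwa [sub_right_comm]⟩

lemma cone_ind {Q : (Fin 6 → ℝ) → Prop} (h0 : Q 0)
    (h1 : ∀ (b v : Fin 6 → ℝ) (t : ℝ), 0 ≤ t → Q b → Q v → Q (b + t • v)) (V : List Ry)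
    (hV : ∀ x ∈ V, Q x.v) (b : Fin 6 → ℝ) (h : Cone V b) : Q b := by
  induction V generalizing b with
  | nil => rw [show b = 0 from h]; exact h0
  | cons x V ih =>
    obtain ⟨t, t0, h⟩ := h
    have := h1 _ _ t t0 (ih (fun y hy => hV y (List.mem_cons_of_mem _ hy)) _ h) (hV x List.mem_cons_self)
    rwa [sub_add_cancel] at this

lemma g_bd (l : List ℕ) (s : ℕ) (hs : 1 ≤ s) :
    |(K : ℝ) * R (fun s => (s ^ 2)⁻¹) (l.map (↑)) s - (g l true s - g l false s : ℝ)| ≤ 2 ^ l.length := by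
  induction l generalizing s with
  | nil =>
    have s0 : (0 : ℝ) < s := by exact_mod_cast hs
    have h1 : ((K / (s * s) : ℕ) : ℝ) ≤ K / (s * s : ℕ) := Nat.cast_div_le
    have h2 : (K : ℝ) / (s * s : ℕ) < (K / (s * s) : ℕ) + 1 := by
      rw [← Nat.floor_div_eq_div (K := ℝ)]; exact Nat.lt_floor_add_one _
    have e : (K : ℝ) / (s * s : ℕ) = K * ((s : ℝ) ^ 2)⁻¹ := by push_cast; rw [div_eq_mul_inv, pow_two]
    rw [e] at h1 h2
    simp only [R, g, List.map_nil, cond_true, cond_false, List.length_nil, pow_zero, Nat.cast_zero, sub_zero]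
    rw [abs_le]; constructor <;> linarith
  | cons x l ih =>
    have h1 := abs_le.1 (ih s hs)
    have h2 := abs_le.1 (ih (s + x) (by omega))
    have e1 : g (x :: l) true s = g l true s + g l false (s + x) := rfl
    have e2 : g (x :: l) false s = g l false s + g l true (s + x) := rfl
    rw [e1, e2, List.map_cons, R, List.length_cons, pow_succ, abs_le]
    push_cast at h2 ⊢
    constructor <;> linarith [h1.1, h1.2, h2.1, h2.2]

lemma cok_ok {s : ℕ} {l : List ℕ} {k : ℕ → Bool} (hl : l.length = 5) (h : cok s l k = true) :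
    ∃ c : ℕ, k c = true ∧ (0 : ℝ) < s ∧ (c : ℝ) ≤ K * ((s : ℝ) ^ 2 * R (fun s => (s ^ 2)⁻¹) (l.map (↑)) s) := by
  simp only [cok, fn_eq, Bool.and_eq_true, Nat.ble_eq] at h
  obtain ⟨h1, h2, h3⟩ := h
  refine ⟨_, h3, by exact_mod_cast h1, ?_⟩
  have := (abs_le.1 (g_bd l s h1)).1
  rw [hl] at this
  push_cast [Nat.cast_sub h2]
  nlinarith [sq_nonneg (s : ℝ), mul_le_mul_of_nonneg_left this (sq_nonneg (s : ℝ))]

lemma cf_eq (a : Fin 6 → ℝ) (i : Fin 6) (l : List (Fin 6)) (hl : l.Nodup) (h : l.toFinset = univ.erase i) :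
    cf a i = a i ^ 2 * R (fun s => (s ^ 2)⁻¹) (l.map a) (a i) := by
  rw [cf, ← h, R_eq (fun s => (s ^ 2)⁻¹) a l hl]

lemma leaf_ok {a b c d e f : ℕ} {V : List Ry} (h : leaf a b c d e f V = true) {y : Fin 6 → ℝ}
    (hy : ∀ i, 0 < y i) (hV : Cone V y) : √(∑ i, y i ^ 2) ≤ F y := by
  obtain ⟨c0, h, a0, b0⟩ := cok_ok rfl h
  obtain ⟨c1, h, a1, b1⟩ := cok_ok rfl h
  obtain ⟨c2, h, a2, b2⟩ := cok_ok rfl h
  obtain ⟨c3, h, a3, b3⟩ := cok_ok rfl h
  obtain ⟨c4, h, a4, b4⟩ := cok_ok rfl h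
  obtain ⟨c5, h, a5, b5⟩ := cok_ok rfl h
  let A : Fin 6 → ℝ := ![a, b, c, d, e, f]
  let C : Fin 6 → ℝ := ![c0, c1, c2, c3, c4, c5]
  have hA : ∀ i, 0 < A i := fun i => by fin_cases i <;> assumption
  have hC : ∀ i, C i ≤ K * cf A i := fun i => by
    fin_cases i
    · exact b0.trans_eq (congrArg _ (cf_eq A 0 [1, 2, 3, 4, 5] (by decide) (by decide)).symm)
    · exact b1.trans_eq (congrArg _ (cf_eq A 1 [0, 2, 3, 4, 5] (by decide) (by decide)).symm)
    · exact b2.trans_eq (congrArg _ (cf_eq A 2 [0, 1, 3, 4, 5] (by decide) (by decide)).symm)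
    · exact b3.trans_eq (congrArg _ (cf_eq A 3 [0, 1, 2, 4, 5] (by decide) (by decide)).symm)
    · exact b4.trans_eq (congrArg _ (cf_eq A 4 [0, 1, 2, 3, 5] (by decide) (by decide)).symm)
    · exact b5.trans_eq (congrArg _ (cf_eq A 5 [0, 1, 2, 3, 4] (by decide) (by decide)).symm)
  have K0 : (0 : ℝ) < K := by norm_num [K]
  have nm : ∀ v : Fin 6 → ℝ, √(∑ i, v i ^ 2) = ‖(WithLp.toLp 2 v : EuclideanSpace ℝ (Fin 6))‖ := fun v => by
    rw [EuclideanSpace.norm_eq]; simp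
  have key := cone_ind (Q := fun v => K * √(∑ i, v i ^ 2) ≤ ∑ i, C i * v i) (by simp)
    (fun u v t t0 h1 h2 => by
      rw [nm] at h1 h2 ⊢
      have e1 : ∑ i, C i * (u + t • v) i = ∑ i, C i * u i + t * ∑ i, C i * v i := by
        rw [mul_sum, ← sum_add_distrib]
        exact sum_congr rfl fun i _ => by simp; ring
      have e2 := norm_add_le (WithLp.toLp 2 u : EuclideanSpace ℝ (Fin 6)) (t • WithLp.toLp 2 v)
      rw [norm_smul, Real.norm_of_nonneg t0] at e2
      rw [e1, WithLp.toLp_add, WithLp.toLp_smul]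
      nlinarith [mul_le_mul_of_nonneg_left e2 K0.le, mul_le_mul_of_nonneg_left h2 t0]) V
    (fun x hx => by
      have := List.all_eq_true.1 h x hx
      simp only [good, Nat.ble_eq] at this
      have h2 : (K : ℝ) * K * (x.a * x.a + x.b * x.b + x.c * x.c + x.d * x.d + x.e * x.e + x.f * x.f) ≤
          (c0 * x.a + c1 * x.b + c2 * x.c + c3 * x.d + c4 * x.e + c5 * x.f) *
          (c0 * x.a + c1 * x.b + c2 * x.c + c3 * x.d + c4 * x.e + c5 * x.f) := by exact_mod_cast this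
      simp only [Fin.sum_univ_six, Ry.v, C, Matrix.cons_val]
      refine abs_le_of_sq_le_sq' ?_ (by positivity) |>.2
      rw [mul_pow, sq_sqrt (by positivity)]
      linarith) y hV
  have h2 : ∑ i, C i * y i ≤ K * ∑ i, cf A i * y i := by
    rw [mul_sum]
    exact sum_le_sum fun i _ => by rw [← mul_assoc]; exact mul_le_mul_of_nonneg_right (hC i) (hy i).le
  exact (le_of_mul_le_mul_left (key.trans h2) K0).trans (tang hA hy)

lemma chk_ok (T : Tr) (V : List Ry) (h : chk T V = true) {y : Fin 6 → ℝ}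
    (hy : ∀ i, 0 < y i) (hV : Cone V y) : √(∑ i, y i ^ 2) ≤ F y := by
  induction T generalizing V with
  | z =>
    have key := cone_ind (Q := fun v => ∀ j : Fin 5, 5 * v j.succ ≤ v 0) (by simp)
      (fun u v t t0 h1 h2 j => by
        simp only [Pi.add_apply, Pi.smul_apply, smul_eq_mul]
        nlinarith [h1 j, mul_le_mul_of_nonneg_left (h2 j) t0]) V
      (fun x hx j => by
        have := List.all_eq_true.1 h x hx
        simp only [vert, Bool.and_eq_true, Nat.ble_eq] at this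
        obtain ⟨⟨⟨⟨h1, h2⟩, h3⟩, h4⟩, h5⟩ := this
        fin_cases j <;> simp [Ry.v] <;> assumption_mod_cast) y hV
    have := near (a := fun i => (y i)⁻¹) (fun i => inv_pos.2 (hy i)) fun j => by
      rw [← div_eq_mul_inv, inv_eq_one_div, div_le_div_iff₀ (hy _) (hy _)]
      linarith [key j]
    simpa [F] using this
  | l a b c d e f => exact leaf_ok h hy hV
  | n i j p q L M ihL ihM =>
    have hc := cone_mv i _ _ (cone_mv j _ _ hV)
    rw [chk] at h
    generalize mv i (mv j V) = W at h hc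
    match W, h, hc with
    | x :: w :: r, h, ⟨s, s0, t, t0, hc⟩ =>
      simp only [cmb, fn_eq, Bool.and_eq_true] at h
      obtain ⟨h1, h2⟩ := h
      have ev : Ry.v ⟨(p + 1) * x.a + (q + 1) * w.a, (p + 1) * x.b + (q + 1) * w.b, (p + 1) * x.c + (q + 1) * w.c,
          (p + 1) * x.d + (q + 1) * w.d, (p + 1) * x.e + (q + 1) * w.e, (p + 1) * x.f + (q + 1) * w.f⟩ =
          ((p : ℝ) + 1) • x.v + ((q : ℝ) + 1) • w.v := by
        funext i; fin_cases i <;> simp [Ry.v]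
      have p0 : (0 : ℝ) < p + 1 := by positivity
      have q0 : (0 : ℝ) < q + 1 := by positivity
      rcases le_total (s / (p + 1)) (t / (q + 1)) with hh | hh
      · refine ihL _ h1 ⟨s / (p + 1), by positivity, t - (q + 1) * (s / (p + 1)), ?_, ?_⟩
        · rw [le_div_iff₀ q0] at hh; linarith
        · rw [ev]
          refine (congrArg (Cone r) ?_).mp hc
          match_scalars <;> field_simp <;> ring
      · refine ihM _ h2 ⟨s - (p + 1) * (t / (q + 1)), ?_, t / (q + 1), by positivity, ?_⟩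
        · rw [le_div_iff₀ p0] at hh; linarith
        · rw [ev]
          refine (congrArg (Cone r) ?_).mp hc
          match_scalars <;> field_simp <;> ring

def V0 : List Ry := [⟨1, 0, 0, 0, 0, 0⟩, ⟨1, 1, 0, 0, 0, 0⟩, ⟨1, 1, 1, 0, 0, 0⟩, ⟨1, 1, 1, 1, 0, 0⟩,
  ⟨1, 1, 1, 1, 1, 0⟩, ⟨1, 1, 1, 1, 1, 1⟩]

lemma six_of (T : Tr) (h : chk T V0 = true) (a : Fin 6 → ℝ) (ha : ∀ i, 0 < a i) :
    √(∑ i, (a i)⁻¹ ^ 2) ≤ S a := by
  have m := Tuple.monotone_sort a
  rw [← perm ha (Tuple.sort a), ← Equiv.sum_comp (Tuple.sort a) fun i => (a i)⁻¹ ^ 2]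
  have hb : ∀ i, 0 < (a ∘ Tuple.sort a) i := fun i => ha _
  change √(∑ i, ((a ∘ Tuple.sort a) i)⁻¹ ^ 2) ≤ _
  generalize a ∘ Tuple.sort a = b at m hb
  have d : ∀ i j, i ≤ j → 0 ≤ (b i)⁻¹ - (b j)⁻¹ := fun i j h => sub_nonneg.2 (inv_anti₀ (hb i) (m h))
  have := chk_ok T V0 h (y := fun i => (b i)⁻¹) (fun i => inv_pos.2 (hb i))
    ⟨_, d 0 1 (by decide), _, d 1 2 (by decide), _, d 2 3 (by decide), _, d 3 4 (by decide), _, d 4 5 (by decide),
      _, (inv_pos.2 (hb 5)).le, by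
        show _ = (0 : Fin 6 → ℝ)
        funext i; fin_cases i <;> simp [Ry.v, Matrix.vecHead, Matrix.vecTail]⟩
  simpa [F] using this

end Pool.Agent.H.MP_2ee812_an
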